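import Pool.Agent.H261R3.LN.LAll
import Pool.Agent.H261R3.LN.SAll

set_option autoImplicit false

/-! # Diameters of spaces of Lipschitz maps from hyperbolic balls

Let `S` be a compact path connected Lipschitz neighbourhood retract, `n = m + 1 ≥ 1` and
`D(R) = diam_c (Lip_1 (B_H^n(R) → S))`. If the fundamental group of `S` is finite, then `D(R)` is
bounded for all large `c`; if it is infinite, then `D(R)` grows linearly for every `c ≥ 1`. -/

namespace Pool.Agent.Results.MP_e25190_gt.Dichotomy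

open scoped NNReal ENNReal
open Pool.Agent.H261R3.LH (IsLNR)
open Pool.Agent.H261R3.LN

theorem result (S : Type) [MetricSpace S] [CompactSpace S] [PathConnectedSpace S]
    (hS : IsLNR S) (p : S) :
    (Finite (Path.Homotopic.Quotient p p) →
      ∀ m : ℕ, ∃ c₀ D : ℝ≥0, 1 ≤ c₀ ∧ ∀ c : ℝ≥0, c₀ ≤ c → ∀ R : ℝ, 0 < R →
        hypDiam m S c R ≤ D) ∧
    (Infinite (Path.Homotopic.Quotient p p) →
      ∃ δ A : ℝ, 0 < δ ∧ ∀ (m : ℕ) (c : ℝ≥0), 1 ≤ c → ∀ R : ℝ, 0 < R →
        ENNReal.ofReal (δ * R - A) ≤ hypDiam m S c R) :=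
  ⟨fun h m => bounded_all mainS m S hS p h, fun h => linear_all S hS p h⟩

end Pool.Agent.Results.MP_e25190_gt.Dichotomy
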